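import Pool.Agent.Y212.RM.Wt

/-!
# Project RM, part 2: SYM and GOUR
-/

set_option autoImplicit false

namespace Pool.Agent.Y212.RM

open Module Polynomial Pool.Agent.Y114.RM

section

variable {K : Type} [Field K] {V : Type} [AddCommGroup V] [Module K V]

/-- `G` is a Lie algebra with nondegenerate trace form and `t` a maximal torus -/
structure Tor (G t : Submodule K (End K V)) : Prop where
  lie : IsLie G
  nd : NonDeg G
  le : t ≤ G
  diag : ∀ a ∈ t, ⨆ μ, End.eigenspace a μ = ⊤
  comm : ∀ a ∈ t, ∀ b ∈ t, a * b = b * a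
  cen : ∀ x ∈ G, (∀ a ∈ t, a * x = x * a) → x ∈ t

variable [CharZero K] [IsAlgClosed K] [FiniteDimensional K V] {G t : Submodule K (End K V)}

theorem Tor.exists_dual (T : Tor G t) {χ : t → K} {e : End K V}
    (he : e ∈ G) (hwt : ∀ a : t, (a : End K V) * e - e * a = χ a • e) (he0 : e ≠ 0) :
    ∃ f ∈ G, (∀ a : t, (a : End K V) * f - f * a = (-χ a) • f) ∧
      LinearMap.trace K V (e * f) ≠ 0 := by
  by_contra hcon
  push Not at hcon
  apply he0
  apply T.nd e he
  refine wt_induction t T.diag T.comm G (fun a ha X hX => T.lie a (T.le ha) X hX)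
    (P := fun Y => LinearMap.trace K V (e * Y) = 0) ?_ ?_ ?_
  · show LinearMap.trace K V (e * 0) = 0
    rw [mul_zero, LinearMap.map_zero]
  · intro X Y _ _ hX hY
    show LinearMap.trace K V (e * (X + Y)) = 0
    have hX' : LinearMap.trace K V (e * X) = 0 := hX
    have hY' : LinearMap.trace K V (e * Y) = 0 := hY
    rw [mul_add, LinearMap.map_add, hX', hY', add_zero]
  · intro ψ X hX hψ
    show LinearMap.trace K V (e * X) = 0
    by_cases h : ∃ a : t, χ a + ψ a ≠ 0
    · obtain ⟨a, ha⟩ := h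
      exact trace_wt (hwt a) (hψ a) ha
    · push Not at h
      refine hcon X hX fun a => ?_
      rw [hψ a, ← eq_neg_of_add_eq_zero_right (h a)]

theorem Tor.exists_triple (T : Tor G t) {χ : t → K} {e : End K V}
    (he : e ∈ G) (hwt : ∀ a : t, (a : End K V) * e - e * a = χ a • e) (he0 : e ≠ 0) {a0 : t}
    (ha0 : χ a0 ≠ 0) :
    ∃ f ∈ G, (∀ a : t, (a : End K V) * f - f * a = (-χ a) • f) ∧
      LinearMap.trace K V (e * f) ≠ 0 ∧ ∃ h ∈ t, h ≠ 0 ∧ e * f - f * e = h ∧
      h * e - e * h = 2 • e ∧ h * f - f * h = -(2 • f) := by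
  obtain ⟨f, hf, hfw, htr⟩ := T.exists_dual he hwt he0
  have hht : e * f - f * e ∈ t := by
    apply T.cen _ (T.lie e he f hf)
    intro a ha
    have h1 := hwt ⟨a, ha⟩
    have h2 := hfw ⟨a, ha⟩
    rw [← sub_eq_zero]
    calc a * (e * f - f * e) - (e * f - f * e) * a =
        (a * e - e * a) * f + e * (a * f - f * a) - (a * f - f * a) * e - f * (a * e - e * a) := by
          noncomm_ring
      _ = 0 := by
        change a * e - e * a = χ ⟨a, ha⟩ • e at h1
        change a * f - f * a = (-χ ⟨a, ha⟩) • f at h2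
        rw [h1, h2, smul_mul_assoc, smul_mul_assoc, mul_smul_comm, mul_smul_comm, neg_smul,
          neg_smul]
        abel
  have hh0 : e * f - f * e ≠ 0 := by
    intro h
    have h1 : LinearMap.trace K V ((e * f - f * e) * a0) = χ a0 * LinearMap.trace K V (e * f) := by
      have h2 : LinearMap.trace K V ((e * f - f * e) * a0) =
          -LinearMap.trace K V (e * ((a0 : End K V) * f - f * a0)) := by
        have h3 : (e * f - f * e) * (a0 : End K V) =
          (e * (f * a0) - e * (a0 * f)) + (e * ((a0 : End K V) * f) - f * (e * a0)) := by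
          noncomm_ring
        have h4 : LinearMap.trace K V (e * ((a0 : End K V) * f)) =
            LinearMap.trace K V (f * (e * a0)) := by
          rw [← mul_assoc e, LinearMap.trace_mul_comm K (e * (a0 : End K V)) f]
        rw [h3, LinearMap.map_add, LinearMap.map_sub, LinearMap.map_sub, h4, sub_self, add_zero,
          mul_sub, LinearMap.map_sub, h4]
        ring
      rw [h2, hfw a0, mul_smul_comm, LinearMap.map_smul, smul_eq_mul]
      ring
    rw [h, zero_mul, LinearMap.map_zero] at h1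
    exact (mul_ne_zero ha0 htr) h1.symm
  obtain ⟨h, hh⟩ : ∃ h : t, (h : End K V) = e * f - f * e := ⟨⟨_, hht⟩, rfl⟩
  have hc : χ h ≠ 0 := by
    intro hc
    apply hh0
    have h1 := hwt h
    have h2 := hfw h
    rw [hc, zero_smul] at h1
    rw [hc, neg_zero, zero_smul] at h2
    rw [← hh]
    exact eq_zero_of_diag hh.symm (sub_eq_zero.1 h1) (sub_eq_zero.1 h2) (T.diag h h.2)
  obtain ⟨c, hcc⟩ : ∃ c : K, c = 2 * (χ h)⁻¹ := ⟨_, rfl⟩
  have hcχ : c * χ h = 2 := by rw [hcc, mul_assoc, inv_mul_cancel₀ hc, mul_one]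
  have hc0 : c ≠ 0 := by
    rintro rfl
    rw [zero_mul] at hcχ
    exact two_ne_zero hcχ.symm
  refine ⟨c • f, G.smul_mem c hf, ?_, ?_, c • (h : End K V), t.smul_mem c h.2, ?_, ?_, ?_, ?_⟩
  · intro a
    rw [mul_smul_comm, smul_mul_assoc, ← smul_sub, hfw a, smul_comm]
  · rw [mul_smul_comm, LinearMap.map_smul, smul_eq_mul]
    exact mul_ne_zero hc0 htr
  · rw [hh]
    exact smul_ne_zero hc0 hh0
  · rw [mul_smul_comm, smul_mul_assoc, ← smul_sub, hh]
  · rw [mul_smul_comm, smul_mul_assoc, ← smul_sub, hwt h, smul_smul, hcχ, ofNat_smul_eq_nsmul]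
  · rw [mul_smul_comm, smul_mul_assoc, smul_mul_assoc, mul_smul_comm, ← smul_sub, ← smul_sub,
      hfw h, smul_smul, smul_smul, mul_neg, mul_assoc, hcχ, neg_smul, mul_comm c 2, ← smul_smul,
      ofNat_smul_eq_nsmul]

end

theorem sym : S_SYM := by
  intro K _ _ _ V _ _ _ G L t hG hnd hLG hL ht hdiag hcomm hcen htrace
  have T : Tor G t := ⟨hG, hnd, ht.trans hLG, hdiag, hcomm, hcen⟩
  -- the radical of the trace form on `L`
  let R : Submodule K (End K V) :=
    { carrier := {X | X ∈ L ∧ ∀ Y ∈ L, LinearMap.trace K V (X * Y) = 0}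
      add_mem' := by
        rintro a b ⟨ha, ha'⟩ ⟨hb, hb'⟩
        refine ⟨L.add_mem ha hb, fun Y hY => ?_⟩
        rw [add_mul, LinearMap.map_add, ha' Y hY, hb' Y hY, add_zero]
      zero_mem' := ⟨L.zero_mem, fun Y _ => by rw [zero_mul, LinearMap.map_zero]⟩
      smul_mem' := by
        rintro c a ⟨ha, ha'⟩
        refine ⟨L.smul_mem c ha, fun Y hY => ?_⟩
        rw [smul_mul_assoc, LinearMap.map_smul, ha' Y hY, smul_zero] }
  have hR : ∀ a ∈ t, ∀ X ∈ R, a * X - X * a ∈ R := by
    rintro a ha X ⟨hX, hX'⟩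
    refine ⟨hL a (ht ha) X hX, fun Y hY => ?_⟩
    have h1 : (a * X - X * a) * Y = (a * (X * Y) - (X * Y) * a) - X * (a * Y - Y * a) := by
      noncomm_ring
    rw [h1, LinearMap.map_sub, trace_lie_zero, hX' _ (hL a (ht ha) Y hY), sub_zero]
  have key : ∀ X ∈ R, X = 0 := by
    refine wt_induction t hdiag hcomm R hR (P := fun X => X = 0) rfl ?_ ?_
    · intro X Y _ _ hX hY
      have hX' : X = 0 := hX
      have hY' : Y = 0 := hY
      show X + Y = 0
      rw [hX', hY', add_zero]
    · rintro χ e ⟨heL, heR⟩ hwt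
      show e = 0
      by_contra he0
      by_cases hχ : ∃ a0 : t, χ a0 ≠ 0
      · obtain ⟨a0, ha0⟩ := hχ
        obtain ⟨f, hf, hfw, htr, h, hht, -, hef, hhe, hhf⟩ :=
          T.exists_triple (hLG heL) hwt he0 ha0
        apply htr
        apply heR
        have hWe : ∀ x ∈ L, adE e x ∈ L := fun x hx => hL e heL x hx
        have hWh : ∀ x ∈ L, adE h x ∈ L := fun x hx => hL h (ht hht) x hx
        have r1 : adE h * adE e - adE e * adE h = 2 • adE e := by
          rw [adE_comm, hhe]
          apply LinearMap.ext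
          intro x
          change (2 • e) * x - x * (2 • e) = 2 • (e * x - x * e)
          rw [smul_mul_assoc, mul_smul_comm, smul_sub]
        have r2 : adE h * adE f - adE f * adE h = -(2 • adE f) := by
          rw [adE_comm, hhf]
          apply LinearMap.ext
          intro x
          change (-(2 • f)) * x - x * (-(2 • f)) = -(2 • (f * x - x * f))
          rw [neg_mul, mul_neg, smul_mul_assoc, mul_smul_comm, smul_sub]
          abel
        have r3 : adE e * adE f - adE f * adE e = adE h := by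
          rw [adE_comm, hef]
        have h1 := Pool.Agent.TH113.J1773.obs K (End K V) (adE h) (adE e) (adE f) r1 r2 r3 L hWe
          hWh (htrace h hht) h (ht hht)
        rw [adE_apply] at h1
        have h2 : f * h - h * f = 2 • f := by
          rw [← neg_sub (h * f) (f * h), hhf, neg_neg]
        rw [h2] at h1
        have h3 : f = (2 : K)⁻¹ • (2 • f) := by
          rw [← ofNat_smul_eq_nsmul K, smul_smul, inv_mul_cancel₀ two_ne_zero, one_smul]
        rw [h3]
        exact L.smul_mem _ h1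
      · push Not at hχ
        obtain ⟨f, hf, hfw, htr⟩ := T.exists_dual (hLG heL) hwt he0
        apply htr
        apply heR
        apply ht
        apply hcen f hf
        intro a ha
        have h1 := hfw ⟨a, ha⟩
        rw [hχ, neg_zero, zero_smul] at h1
        exact sub_eq_zero.1 h1
  intro X hX hX'
  exact key X ⟨hX, hX'⟩

attribute [local instance 100] LieRing.ofAssociativeRing

/-- root spaces are one-dimensional -/
theorem Tor.mem_span {K : Type} [Field K] [CharZero K] [IsAlgClosed K] {V : Type}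
    [AddCommGroup V] [Module K V] [FiniteDimensional K V] {G t : Submodule K (End K V)}
    (T : Tor G t) {χ : t → K} {e e' : End K V} (he : e ∈ G) (he' : e' ∈ G)
    (hwt : ∀ a : t, (a : End K V) * e - e * a = χ a • e)
    (hwt' : ∀ a : t, (a : End K V) * e' - e' * a = χ a • e') (he0 : e ≠ 0) {a0 : t}
    (ha0 : χ a0 ≠ 0) : ∃ c : K, e' = c • e := by
  obtain ⟨f, hf, hfw, htr, h, hht, hh0, hef, hhe, hhf⟩ := T.exists_triple he hwt he0 ha0
  obtain ⟨c, hc⟩ : ∃ c : K, c = LinearMap.trace K V (e' * f) * (LinearMap.trace K V (e * f))⁻¹ :=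
    ⟨_, rfl⟩
  refine ⟨c, ?_⟩
  obtain ⟨x, hx⟩ : ∃ x, x = e' - c • e := ⟨_, rfl⟩
  rw [← sub_eq_zero, ← hx]
  have hxG : x ∈ G := by rw [hx]; exact G.sub_mem he' (G.smul_mem c he)
  have hxtr : LinearMap.trace K V (x * f) = 0 := by
    rw [hx, sub_mul, smul_mul_assoc, LinearMap.map_sub, LinearMap.map_smul, hc, smul_eq_mul,
      mul_assoc, inv_mul_cancel₀ htr, mul_one, sub_self]
  have hxw : ∀ a : t, (a : End K V) * x - x * a = χ a • x := by
    intro a
    have h1 : (a : End K V) * x - x * a =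
        ((a : End K V) * e' - e' * a) - c • ((a : End K V) * e - e * a) := by
      rw [hx, mul_sub, sub_mul, mul_smul_comm, smul_mul_assoc, smul_sub]
      abel
    rw [h1, hwt a, hwt' a, hx, smul_sub, smul_comm c]
  -- `x` commutes with `f`
  have hxft : x * f - f * x ∈ t := by
    apply T.cen _ (T.lie x hxG f hf)
    intro a ha
    have h1 := hxw ⟨a, ha⟩
    have h2 := hfw ⟨a, ha⟩
    rw [← sub_eq_zero]
    calc a * (x * f - f * x) - (x * f - f * x) * a =
        (a * x - x * a) * f + x * (a * f - f * a) - (a * f - f * a) * x - f * (a * x - x * a) := by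
          noncomm_ring
      _ = 0 := by
        change a * x - x * a = χ ⟨a, ha⟩ • x at h1
        change a * f - f * a = (-χ ⟨a, ha⟩) • f at h2
        rw [h1, h2, smul_mul_assoc, smul_mul_assoc, mul_smul_comm, mul_smul_comm, neg_smul,
          neg_smul]
        abel
  have hxf : x * f - f * x = 0 := by
    apply T.nd _ (T.le hxft)
    refine wt_induction t T.diag T.comm G (fun a ha X hX => T.lie a (T.le ha) X hX)
      (P := fun Y => LinearMap.trace K V ((x * f - f * x) * Y) = 0) ?_ ?_ ?_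
    · show LinearMap.trace K V ((x * f - f * x) * 0) = 0
      rw [mul_zero, LinearMap.map_zero]
    · intro X Y _ _ hX hY
      show LinearMap.trace K V ((x * f - f * x) * (X + Y)) = 0
      have hX' : LinearMap.trace K V ((x * f - f * x) * X) = 0 := hX
      have hY' : LinearMap.trace K V ((x * f - f * x) * Y) = 0 := hY
      rw [mul_add, LinearMap.map_add, hX', hY', add_zero]
    · intro ψ Y hY hψ
      show LinearMap.trace K V ((x * f - f * x) * Y) = 0
      by_cases h1 : ∃ a : t, ψ a ≠ 0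
      · obtain ⟨a, ha⟩ := h1
        refine trace_wt (a := a) (c := 0) (d := ψ a) ?_ (hψ a) (by rwa [zero_add])
        rw [zero_smul, T.comm a a.2 _ hxft, sub_self]
      · push Not at h1
        have hYt : Y ∈ t := by
          apply T.cen Y hY
          intro a ha
          have h2 := hψ ⟨a, ha⟩
          rw [h1, zero_smul] at h2
          exact sub_eq_zero.1 h2
        have h2 : (x * f - f * x) * Y = (x * (f * Y) - (f * Y) * x) + f * (Y * x - x * Y) := by
          noncomm_ring
        have h3 := hxw ⟨Y, hYt⟩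
        change Y * x - x * Y = χ ⟨Y, hYt⟩ • x at h3
        rw [h2, h3, LinearMap.map_add, trace_lie_zero, zero_add, mul_smul_comm,
          LinearMap.map_smul, LinearMap.trace_mul_comm K f x, hxtr, smul_zero]
  by_contra hx0
  have hsl : IsSl2Triple h e f := ⟨hh0, by rw [← hef]; rfl, by rw [← hhe]; rfl, by
    rw [← hhf]; rfl⟩
  have hhx : h * x - x * h = (2 : K) • x := by
    have h1 := hxw ⟨h, hht⟩
    change h * x - x * h = χ ⟨h, hht⟩ • x at h1
    have h2 := hwt ⟨h, hht⟩
    change h * e - e * h = χ ⟨h, hht⟩ • e at h2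
    rw [hhe, ← ofNat_smul_eq_nsmul K] at h2
    have h3 : (2 : K) = χ ⟨h, hht⟩ := smul_left_injective K he0 h2
    rw [h1, ← h3]
  have hprim : hsl.symm.HasPrimitiveVectorWith x (-2 : K) := by
    refine ⟨hx0, ?_, ?_⟩
    · rw [neg_lie, neg_smul, neg_inj]
      exact hhx
    · have h1 : f * x - x * f = 0 := by rw [← neg_sub (x * f) (f * x), hxf, neg_zero]
      exact h1
  obtain ⟨n, hn⟩ := hprim.exists_nat
  have h1 : ((n + 2 : ℕ) : K) = 0 := by
    push_cast
    rw [← hn]
    ring
  have h2 : n + 2 = 0 := by exact_mod_cast h1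
  omega

theorem gour : S_GOUR := by
  intro K _ _ _ V _ _ _ G L t hG hnd hLG hL ht hdiag hcomm hcen ι _ e hsum hcommG hproj
  have T : Tor G t := ⟨hG, hnd, ht.trans hLG, hdiag, hcomm, hcen⟩
  refine le_antisymm hLG ?_
  show ∀ X ∈ G, X ∈ L
  refine wt_induction t hdiag hcomm G (fun a ha X hX => hG a (hLG (ht ha)) X hX)
    (P := fun X => X ∈ L) L.zero_mem (fun X Y _ _ hX hY => L.add_mem hX hY) ?_
  intro χ X hX hwt
  show X ∈ L
  by_cases hX0 : X = 0
  · rw [hX0]; exact L.zero_mem
  by_cases hχ : ∃ a0 : t, χ a0 ≠ 0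
  · obtain ⟨a0, ha0⟩ := hχ
    obtain ⟨i, hi⟩ : ∃ i, e i * X ≠ 0 := by
      by_contra hcon
      push Not at hcon
      apply hX0
      rw [← one_mul X, ← hsum, Finset.sum_mul]
      exact Finset.sum_eq_zero fun i _ => hcon i
    obtain ⟨Y, hY, hYX⟩ := hproj i X hX
    let S : Submodule K (End K V) :=
      { carrier := {Z | Z ∈ L ∧ ∃ c : K, e i * Z = c • (e i * X)}
        add_mem' := by
          rintro a b ⟨ha, c, ha'⟩ ⟨hb, d, hb'⟩
          exact ⟨L.add_mem ha hb, c + d, by rw [mul_add, ha', hb', add_smul]⟩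
        zero_mem' := ⟨L.zero_mem, 0, by rw [mul_zero, zero_smul]⟩
        smul_mem' := by
          rintro c a ⟨ha, d, ha'⟩
          exact ⟨L.smul_mem c ha, c * d, by rw [mul_smul_comm, ha', smul_smul]⟩ }
    have hcomp : ∀ a ∈ t, ∀ Z, e i * (a * Z - Z * a) = a * (e i * Z) - (e i * Z) * a := by
      intro a ha Z
      rw [mul_sub, ← mul_assoc, hcommG i a (hLG (ht ha)), mul_assoc, mul_assoc]
    have hS : ∀ a ∈ t, ∀ Z ∈ S, a * Z - Z * a ∈ S := by
      rintro a ha Z ⟨hZ, c, hc⟩
      refine ⟨hL a (ht ha) Z hZ, c * χ ⟨a, ha⟩, ?_⟩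
      have h1 := hwt ⟨a, ha⟩
      change a * X - X * a = χ ⟨a, ha⟩ • X at h1
      rw [hcomp a ha, hc, mul_smul_comm, smul_mul_assoc, ← smul_sub, ← hcomp a ha, h1,
        mul_smul_comm, smul_smul]
    obtain ⟨ψ, Z, ⟨hZL, c, hZc⟩, hZw, hZ0⟩ : ∃ ψ : t → K, ∃ Z ∈ S,
        (∀ a : t, (a : End K V) * Z - Z * a = ψ a • Z) ∧ e i * Z ≠ 0 := by
      by_contra hcon
      push Not at hcon
      have h1 : ∀ Z ∈ S, e i * Z = 0 := by
        refine wt_induction t hdiag hcomm S hS (P := fun Z => e i * Z = 0) (mul_zero _) ?_ ?_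
        · intro A B _ _ hA hB
          have hA' : e i * A = 0 := hA
          have hB' : e i * B = 0 := hB
          show e i * (A + B) = 0
          rw [mul_add, hA', hB', add_zero]
        · intro ψ Z hZ hZw
          exact hcon ψ Z hZ hZw
      apply hi
      rw [← hYX]
      exact h1 Y ⟨hY, 1, by rw [one_smul, hYX]⟩
    have hψ : ∀ a : t, ψ a = χ a := by
      intro a
      have h1 : ψ a • (e i * Z) = χ a • (e i * Z) := by
        rw [← mul_smul_comm, ← hZw a, hcomp a a.2, hZc, mul_smul_comm, smul_mul_assoc, ← smul_sub,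
          ← hcomp a a.2, hwt a, mul_smul_comm, smul_comm]
      exact smul_left_injective K hZ0 h1
    have hZne : Z ≠ 0 := by
      rintro rfl
      exact hZ0 (mul_zero _)
    obtain ⟨d, hd⟩ := T.mem_span (hLG hZL) hX (fun a => by rw [hZw a, hψ a]) hwt hZne ha0
    rw [hd]
    exact L.smul_mem d hZL
  · push Not at hχ
    apply ht
    apply hcen X hX
    intro a ha
    have h1 := hwt ⟨a, ha⟩
    rw [hχ, zero_smul] at h1
    exact sub_eq_zero.1 h1

end Pool.Agent.Y212.RM
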