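import Pool.Agent.Y114.RM.Stm4
import Pool.Agent.TH113.J1773

/-!
# Project RM, part 2: joint weight spaces of a torus of diagonalizable endomorphisms
-/

set_option autoImplicit false

namespace Pool.Agent.Y212.RM

open Module Polynomial Pool.Agent.Y114.RM

section

variable {K : Type} [Field K] {V : Type} [AddCommGroup V] [Module K V]

lemma adE_comm (X Y : End K V) : adE X * adE Y - adE Y * adE X = adE (X * Y - Y * X) := by
  apply LinearMap.ext
  intro Z
  rw [LinearMap.sub_apply, Module.End.mul_apply, Module.End.mul_apply, adE_apply, adE_apply,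
    adE_apply, adE_apply, adE_apply]
  noncomm_ring

lemma trace_lie_zero [FiniteDimensional K V] (X Y : End K V) :
    LinearMap.trace K V (X * Y - Y * X) = 0 := by
  rw [LinearMap.map_sub, LinearMap.trace_mul_comm K X Y, sub_self]

/-- a diagonalizable endomorphism is killed by a squarefree polynomial -/
lemma exists_squarefree [FiniteDimensional K V] {a : End K V}
    (ha : ⨆ μ, End.eigenspace a μ = ⊤) : ∃ p : K[X], Squarefree p ∧ aeval a p = 0 := by
  classical
  obtain ⟨s, hs⟩ : ∃ s : Finset K, ∀ μ, a.HasEigenvalue μ → μ ∈ s :=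
    ⟨(End.finite_hasEigenvalue a).toFinset, fun μ h => (Set.Finite.mem_toFinset _).2 h⟩
  refine ⟨∏ μ ∈ s, (X - C μ), ?_, ?_⟩
  · have : (∏ μ ∈ s, (X - C ((fun i => i) μ))).Separable :=
      Polynomial.separable_prod_X_sub_C_iff'.2 (fun _ _ _ _ h => h)
    exact this.squarefree
  · have h1 : ∀ x : V, (aeval a (∏ μ ∈ s, (X - C μ))) x = 0 := by
      intro x
      have hx : x ∈ ⨆ μ, End.eigenspace a μ := by rw [ha]; trivial
      induction hx using Submodule.iSup_induction' with
      | zero => rw [map_zero]
      | add x y _ _ hx hy => rw [map_add, hx, hy, add_zero]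
      | mem μ x hx =>
        by_cases hx0 : x = 0
        · rw [hx0, map_zero]
        have hμ : μ ∈ s := hs μ (End.hasEigenvalue_of_hasEigenvector ⟨hx, hx0⟩)
        rw [← Finset.mul_prod_erase s _ hμ, mul_comm, map_mul, Module.End.mul_apply]
        have : (aeval a (X - C μ)) x = 0 := by
          rw [map_sub, aeval_X, aeval_C, LinearMap.sub_apply, End.mem_eigenspace_iff.1 hx,
            Module.algebraMap_end_apply, sub_self]
        rw [this, map_zero]
    exact LinearMap.ext h1

lemma aeval_mulLeft (a : End K V) (p : K[X]) (Y : End K V) :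
    (aeval (LinearMap.mulLeft K a) p) Y = aeval a p * Y := by
  induction p using Polynomial.induction_on' with
  | add p q hp hq => rw [map_add, map_add, LinearMap.add_apply, hp, hq, add_mul]
  | monomial n c =>
    rw [aeval_monomial, aeval_monomial, Module.End.mul_apply, Module.algebraMap_end_apply,
      LinearMap.pow_mulLeft, LinearMap.mulLeft_apply, mul_assoc, ← Algebra.smul_def]

lemma aeval_mulRight (a : End K V) (p : K[X]) (Y : End K V) :
    (aeval (LinearMap.mulRight K a) p) Y = Y * aeval a p := by
  induction p using Polynomial.induction_on' with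
  | add p q hp hq => rw [map_add, map_add, LinearMap.add_apply, hp, hq, mul_add]
  | monomial n c =>
    rw [aeval_monomial, aeval_monomial, Module.End.mul_apply, Module.algebraMap_end_apply,
      LinearMap.pow_mulRight, LinearMap.mulRight_apply, ← Algebra.smul_def, mul_smul_comm]

lemma adE_semisimple [CharZero K] [FiniteDimensional K V] {a : End K V}
    (ha : ⨆ μ, End.eigenspace a μ = ⊤) : (adE a).IsSemisimple := by
  obtain ⟨p, hp, hpa⟩ := exists_squarefree ha
  have h1 : Module.End.IsSemisimple (LinearMap.mulLeft K a) := by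
    apply End.isSemisimple_of_squarefree_aeval_eq_zero hp
    apply LinearMap.ext
    intro Y
    rw [aeval_mulLeft, hpa, zero_mul]
    rfl
  have h2 : Module.End.IsSemisimple (LinearMap.mulRight K a) := by
    apply End.isSemisimple_of_squarefree_aeval_eq_zero hp
    apply LinearMap.ext
    intro Y
    rw [aeval_mulRight, hpa, mul_zero]
    rfl
  exact End.IsSemisimple.sub_of_commute (LinearMap.commute_mulLeft_right a a) h1 h2

/-- induction over the joint weight vectors of a torus on a stable space of endomorphisms -/
theorem wt_induction [CharZero K] [IsAlgClosed K] [FiniteDimensional K V]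
    (t : Submodule K (End K V)) (hd : ∀ a ∈ t, ⨆ μ, End.eigenspace a μ = ⊤)
    (hc : ∀ a ∈ t, ∀ b ∈ t, a * b = b * a) (S : Submodule K (End K V))
    (hS : ∀ a ∈ t, ∀ X ∈ S, a * X - X * a ∈ S) {P : End K V → Prop} (h0 : P 0)
    (hadd : ∀ X Y, X ∈ S → Y ∈ S → P X → P Y → P (X + Y))
    (hwt : ∀ χ : t → K, ∀ X ∈ S, (∀ a : t, (a : End K V) * X - X * a = χ a • X) → P X) :
    ∀ X ∈ S, P X := by
  let f : t → End K S := fun a => (adE (a : End K V)).restrict (hS a a.2)
  have hfc : Pairwise (Function.onFun Commute f) := by
    intro a b _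
    change f a * f b = f b * f a
    apply LinearMap.ext
    intro x
    apply Subtype.ext
    change adE (a : End K V) (adE (b : End K V) x) = adE (b : End K V) (adE (a : End K V) x)
    have h1 := congrArg (fun T => T (x : End K V)) (adE_comm (a : End K V) b)
    rw [hc a a.2 b b.2, sub_self] at h1
    rw [LinearMap.sub_apply, Module.End.mul_apply, Module.End.mul_apply, adE_apply (0 : End K V),
      zero_mul, mul_zero, sub_self] at h1
    exact sub_eq_zero.1 h1
  have hss : ∀ a, (f a).IsSemisimple := by
    intro a
    have hp : S ∈ End.invtSubmodule (adE (a : End K V)) := fun x hx => hS a a.2 x hx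
    exact (adE_semisimple (hd a a.2)).restrict hp
  have h2 := End.iSup_iInf_maxGenEigenspace_eq_top_of_iSup_maxGenEigenspace_eq_top_of_commute f hfc
    (fun a => End.iSup_maxGenEigenspace_eq_top _)
  intro X hX
  have hX' : (⟨X, hX⟩ : S) ∈ ⨆ χ : t → K, ⨅ i, (f i).maxGenEigenspace (χ i) := by
    rw [h2]; trivial
  have h3 : ∀ x : S, x ∈ (⨆ χ : t → K, ⨅ i, (f i).maxGenEigenspace (χ i)) → P x := by
    intro x hx
    induction hx using Submodule.iSup_induction' with
    | zero => exact h0
    | add x y _ _ hx hy => exact hadd _ _ x.2 y.2 hx hy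
    | mem χ x hx =>
      refine hwt χ x x.2 fun a => ?_
      have h4 := (Submodule.mem_iInf _).1 hx a
      rw [(hss a).isFinitelySemisimple.maxGenEigenspace_eq_eigenspace, End.mem_eigenspace_iff] at h4
      exact congrArg Subtype.val h4
  exact h3 _ hX'

/-- weight vectors whose weights do not cancel are orthogonal -/
lemma trace_wt [FiniteDimensional K V] {a X Y : End K V} {c d : K} (hX : a * X - X * a = c • X)
    (hY : a * Y - Y * a = d • Y) (hcd : c + d ≠ 0) : LinearMap.trace K V (X * Y) = 0 := by
  have h1 : LinearMap.trace K V (a * (X * Y) - (X * Y) * a) = 0 := trace_lie_zero _ _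
  have h2 : a * (X * Y) - (X * Y) * a = (c + d) • (X * Y) := by
    calc a * (X * Y) - (X * Y) * a = (a * X - X * a) * Y + X * (a * Y - Y * a) := by noncomm_ring
      _ = (c + d) • (X * Y) := by
        rw [hX, hY, smul_mul_assoc, mul_smul_comm, add_smul]
  rw [h2, LinearMap.map_smul, smul_eq_mul] at h1
  exact (mul_eq_zero.1 h1).resolve_left hcd

/-- a commutator which commutes with one of its terms and is diagonalizable vanishes -/
lemma eq_zero_of_diag [CharZero K] [FiniteDimensional K V] {e f h : End K V}
    (hef : e * f - f * e = h) (he : h * e = e * h) (hf : h * f = f * h)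
    (hd : ⨆ μ, End.eigenspace h μ = ⊤) : h = 0 := by
  apply LinearMap.ext
  intro x
  have hx : x ∈ ⨆ μ, End.eigenspace h μ := by rw [hd]; trivial
  induction hx using Submodule.iSup_induction' with
  | zero => rw [map_zero]; rfl
  | add x y _ _ hx hy => rw [map_add, hx, hy]; simp
  | mem μ x hx =>
    by_cases hμ : μ = 0
    · rw [End.mem_eigenspace_iff.1 hx, hμ, zero_smul]; rfl
    have h1 : ∀ g : End K V, h * g = g * h → ∀ y ∈ End.eigenspace h μ, g y ∈ End.eigenspace h μ := by
      intro g hg y hy
      rw [End.mem_eigenspace_iff] at hy ⊢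
      have h2 := congrArg (fun T => T y) hg
      change h (g y) = g (h y) at h2
      rw [h2, hy, map_smul]
    have h2 : LinearMap.trace K (End.eigenspace h μ) (e.restrict (h1 e he) * f.restrict (h1 f hf) -
        f.restrict (h1 f hf) * e.restrict (h1 e he)) = 0 := by
      rw [LinearMap.map_sub, LinearMap.trace_mul_comm K (e.restrict (h1 e he)), sub_self]
    have h3 : e.restrict (h1 e he) * f.restrict (h1 f hf) -
        f.restrict (h1 f hf) * e.restrict (h1 e he) = μ • (1 : End K (End.eigenspace h μ)) := by
      apply LinearMap.ext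
      intro y
      apply Subtype.ext
      have h4 := congrArg (fun T => T (y : V)) hef
      change e (f y) - f (e y) = h y at h4
      change e (f y) - f (e y) = μ • (y : V)
      rw [h4, End.mem_eigenspace_iff.1 y.2]
    rw [h3, LinearMap.map_smul, LinearMap.trace_one, smul_eq_mul] at h2
    have h4 : finrank K (End.eigenspace h μ) = 0 := by
      exact_mod_cast (mul_eq_zero.1 h2).resolve_left hμ
    have h5 : End.eigenspace h μ = ⊥ := Submodule.finrank_eq_zero.1 h4
    have h6 : x = 0 := by
      rw [h5] at hx
      exact (Submodule.mem_bot K).1 hx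
    rw [h6, map_zero]
    rfl

end

end Pool.Agent.Y212.RM
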